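import Pool.Agent.Helper34.EXR.Main

set_option autoImplicit false

namespace Pool.Agent.Results.MP_f270bf_lc.DirectionThresholds

open Pool.Agent.Helper34.EXR

/-- Which coset classes of exponent vectors are counted by finitely many Gram determinants, and
the exact threshold for slabs `m ≤ l·v ≤ m + k`. -/
theorem result :
    (∀ (L : AddSubgroup (Fin 5 → ℤ)) (S : Set (Fin 5 → ℤ)) (T : Finset (Fin 5 → ℤ)),
      (∀ v, v ∈ S ↔ ∃ u ∈ T, ∃ l ∈ L, v = u + l) →
        [Counted ℂ S T.card, ∃ N, CountedOne S N, Crit L S].TFAE) ∧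
    (∀ l w : Fin 5 → ℤ, dot l w = 1 → ∀ (m : ℤ) (k : ℕ),
      (k < (Zs l).ncard → Counted ℂ (strip l m k) (k + 1)) ∧
      ((Zs l).ncard ≤ k → ∀ N, ¬ CountedOne (strip l m k) N)) ∧
    (∀ l ∈ fifteen, (Zs l).ncard = 2) :=
  ⟨coset_classes, fun _ _ hw _ _ => ⟨fun h => strip_counted hw h,
    fun h N => strip_not_counted hw h N⟩, fun _ h => fifteen_ncard h⟩

end Pool.Agent.Results.MP_f270bf_lc.DirectionThresholds
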