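import Pool.Agent.Helper51.U2.Hook

set_option autoImplicit false

open Finset Matrix MvPolynomial

namespace Pool.Agent.Results.MP_f270bf_lc.FiveDeterminants

open Pool.Agent.Helper51.U2

/-- Let `A` be an `r × n` matrix over `ℤ[s,t]` (with `α = s`, `β = 1/t`) each of whose nonzero
maximal minors is `± s^a t^b (1-s)^c (1-t)^d (1-st)^e` with `a = 0` or `b ≤ 1`. Then the
(weighted) number of bases of the matroid of `A` is a combination of five determinants. -/
theorem result (r n : ℕ) (A : Matrix (Fin r) (Fin n) Rst) (hA : IsHook A) (w : Fin n → ℂ) :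
    3 * ∑ S ∈ (Finset.univ.filter fun S : Finset (Fin n) => minor A S ≠ 0), ∏ e ∈ S, w e =
      2 * gram A w zeta 0 + 3 * gram A w 0 zeta - 2 * gram A w 0 0
        + gram A w zeta (2 - zeta) - gram A w 0 (2 - zeta) :=
  hook_formula A hA w

end Pool.Agent.Results.MP_f270bf_lc.FiveDeterminants
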