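import Pool.Agent.Helper34.EXR.Main

set_option autoImplicit false

namespace Pool.Agent.Results.MP_f270bf_lc.GramReach

open Pool.Agent.Helper34.EXR

/-- Exact reach of Gram determinants: a linear formula exists for all finite sets of exponent
vectors in `S`, iff Gram determinants determine the number of bases of one-row matrices, iff
`h(1) = 0` for all multiples `Δ h` with exponents in `S`. For slabs this is a condition on the
width of the exponents of `Δ`. -/
theorem result :
    (∀ S : Set (Fin 5 → ℤ),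
      [∀ (k : ℕ) (T : Finset (Fin 5 → ℤ)), (T : Set (Fin 5 → ℤ)) ⊆ S →
          (∀ v ∈ T, ∀ i, |v i| ≤ k) → CountedInt (T : Set (Fin 5 → ℤ)) T.card (20 * k + 12),
       Determined S,
       ∀ h : AddMonoidAlgebra ℤ (Fin 5 → ℤ),
         ((DelK ℤ * h).coeff.support : Set (Fin 5 → ℤ)) ⊆ S →
           h.coeff.sum (fun _ a => a) = 0].TFAE) ∧
    (∀ l w : Fin 5 → ℤ, dot l w = 1 → ∀ (m : ℤ) (k : ℕ),
      (∀ h : AddMonoidAlgebra ℤ (Fin 5 → ℤ),
        ((DelK ℤ * h).coeff.support : Set (Fin 5 → ℤ)) ⊆ strip l m k →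
          h.coeff.sum (fun _ a => a) = 0) ↔
        ∃ μ ∈ (DelK ℤ).coeff.support, ∃ ν ∈ (DelK ℤ).coeff.support,
          (k : ℤ) < dot l μ - dot l ν) :=
  ⟨exact_reach, fun _ _ hw m k => strip_int hw m k⟩

end Pool.Agent.Results.MP_f270bf_lc.GramReach
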