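import Pool.Agent.QUA.Main
import Pool.Agent.QUE.Main

/-!
# MP_f270bf_lc: the bases of 2-uniform matroids are counted in polynomial time
-/

set_option autoImplicit false

open Matrix N68a2faeb
open scoped Classical

noncomputable section

namespace Pool.Agent.Results.MP_f270bf_lc.UniformBases

/-- the field `ℚ(α, β)` -/
abbrev Field2 : Type := FractionRing (MvPolynomial (Fin 2) ℚ)

/-- `α` -/
def α : Field2 := algebraMap (MvPolynomial (Fin 2) ℚ) Field2 (MvPolynomial.X 0)

/-- `β` -/
def β : Field2 := algebraMap (MvPolynomial (Fin 2) ℚ) Field2 (MvPolynomial.X 1)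

/-- The description of an entry: nonzero?, negative?, the exponents of `α`, `β`, `1 - α`, `1 - β`, `α - β`. -/
abbrev Code : Type := Bool × (Bool × (ℤ × (ℤ × (ℤ × (ℤ × ℤ)))))

/-- The entry described by a code: `0` or `± α^a β^b (1-α)^c (1-β)^d (α-β)^e`. -/
def val : Code → Field2
  | (false, _) => 0
  | (true, (s, (a, (b, (c, (d, e)))))) =>
    (if s then -1 else 1) * α ^ a * β ^ b * (1 - α) ^ c * (1 - β) ^ d * (α - β) ^ e

/-- `x` is an element of the group of the 2-uniform partial field. -/
def InGroup (x : Field2) : Prop := ∃ (s : Bool) (a b c d e : ℤ), x = val (true, (s, (a, (b, (c, (d, e))))))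

/-- `U₂`-matrices: the determinant of every square submatrix is `0` or in the group. -/
def IsU2Matrix {r n : ℕ} (A : Matrix (Fin r) (Fin n) Field2) : Prop :=
  ∀ (m : ℕ) (f : Fin m → Fin r) (g : Fin m → Fin n), (A.submatrix f g).det = 0 ∨ InGroup (A.submatrix f g).det

/-- `B` is a basis of `M[A]`: a set of `r` columns (`r` is the number of rows) with nonzero determinant. -/
def IsBasis {r n : ℕ} (A : Matrix (Fin r) (Fin n) Field2) (B : Finset (Fin n)) : Prop :=
  ∃ h : B.card = r, (A.submatrix id (B.orderEmbOfFin h)).det ≠ 0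

/-- The input which describes a matrix: the list of its rows, which are lists of codes. -/
def input {r n : ℕ} (C : Matrix (Fin r) (Fin n) Code) : List (List Code) :=
  List.ofFn fun i => List.ofFn fun j => C i j

private theorem alpha_eq : α = FRM.al := rfl

private theorem beta_eq : β = FRM.be := rfl

private theorem val_eq (x : Code) : val x = FRN.vE x := by
  obtain ⟨b, s, a, b', c, d, e⟩ := x
  unfold FRN.vE
  cases b with
  | false => rfl
  | true =>
    rw [if_pos rfl]
    cases s
    · simp [val, FRM.ev, FRN.cx, alpha_eq, beta_eq]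
    · have h : (1 : ZMod 2).val = 1 := rfl
      simp [val, FRM.ev, FRN.cx, alpha_eq, beta_eq, h]

private theorem inG {x : Field2} (h : InGroup x) : FRM.InG x := by
  obtain ⟨s, a, b, c, d, e, rfl⟩ := h
  refine ⟨FRN.cx (true, (s, (a, (b, (c, (d, e)))))), ?_⟩
  rw [val_eq]
  rfl

/-- There is a function `F`, computed by a Turing machine in polynomial time, such that for every `U₂`-matrix, given by the codes of its
entries, `F` returns the number of bases of its matroid. -/
theorem result : ∃ F : List (List Code) → ℕ, IsPolyTime F ∧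
    ∀ (r n : ℕ) (C : Matrix (Fin r) (Fin n) Code), IsU2Matrix (C.map val) → F (input C) = {B | IsBasis (C.map val) B}.ncard := by
  obtain ⟨F, hF, h⟩ := QUA.main
    (fun E _ _ t g hm hU => by
      obtain ⟨H, hH⟩ := QUE.ex (E := E) (t := t) (g := g) hm hU
      exact ⟨H, hH⟩)
    (fun E _ _ t g hm hU hc ho H H' h h' => QUE.un (E := E) (t := t) (g := g) hm hU hc ho h h')
  refine ⟨F, hF, fun r n C hU => ?_⟩
  have e : C.map val = C.map FRN.vE := by
    ext i j
    exact val_eq _
  rw [e] at hU ⊢
  have h1 : FRM.IsU2 (C.map FRN.vE) := fun m f g => (hU m f g).imp id inG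
  have h3 := h r n C h1
  have h4 : FRN.mx C = input C := rfl
  rw [h4] at h3
  have h5 : {B | IsBasis (C.map FRN.vE) B} =
      ((Finset.univ.filter fun S => FRM.IsBas (C.map FRN.vE) S : Finset (Finset (Fin n))) : Set (Finset (Fin n))) := by
    ext S
    simp only [Finset.coe_filter, Finset.mem_univ, true_and, Set.mem_ofPred_eq]
    rfl
  rw [h3, h5, Set.ncard_coe_finset, FRN.nB]

end Pool.Agent.Results.MP_f270bf_lc.UniformBases
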